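import Mathlib
import Pool.Agent.D0H61.AB.Geo

/-!
# The exact order of the maximal quality: families
-/

set_option autoImplicit false

open MeasureTheory Filter

namespace Pool.Agent.D0H60.GDL

open Pool.Agent.D0H61.AB

theorem upper_fam (hUP : S_UP) {Λ : Type} [MeasurableSpace Λ] (μ : Measure Λ)
    (G : Λ → ℕ → ℕ → ℝ) (C : ℝ)
    (h : ∀ a b c : ℕ, 0 < a → 0 < b → 0 < c → ∀ W : ℝ, 1 ≤ W →
      μ {l | |G l a b - c| ≤ W} ≤ ENNReal.ofReal (C * W / max (max (a : ℝ) b) c)) :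
    ∀ᵐ l ∂μ, ∀ k : ℝ, 0 < k → (∀ a b : ℕ, 0 < a → 0 < b → k * (a + b) ≤ G l a b) →
      ∀ ε K : ℝ, 0 < ε → {t : ℕ × ℕ × ℕ | PC t ∧ |G l t.1 t.2.1 - t.2.2| ≤ K ∧
        (rad (t.1 * t.2.1 * t.2.2) : ℝ) ≤
          t.2.2 * Real.exp (-(4 * Real.sqrt 3 + ε) * V t.2.2)}.Finite := by
  have h1 : ∀ᵐ l ∂μ, ∀ n R m : ℕ, 1 ≤ n → 1 ≤ R → C * n ≤ R →
      {t : ℕ × ℕ × ℕ | PC t ∧ (t.1 : ℝ) ≤ (R : ℝ) * t.2.2 ∧ (t.2.1 : ℝ) ≤ (R : ℝ) * t.2.2 ∧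
        l ∈ {l | |G l t.1 t.2.1 - t.2.2| ≤ n} ∧
        (rad (t.1 * t.2.1 * t.2.2) : ℝ) ≤
          t.2.2 * Real.exp (-(4 * Real.sqrt 3 + 1 / ((m : ℝ) + 1)) * V t.2.2)}.Finite := by
    rw [ae_all_iff]
    intro n
    rw [ae_all_iff]
    intro R
    rw [ae_all_iff]
    intro m
    by_cases hc : 1 ≤ n ∧ 1 ≤ R ∧ C * n ≤ R
    · obtain ⟨hn, hR, hCn⟩ := hc
      have hR1 : (1 : ℝ) ≤ R := by exact_mod_cast hR
      have hn1 : (1 : ℝ) ≤ n := by exact_mod_cast hn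
      have := hUP Λ μ (fun t => {l | |G l t.1 t.2.1 - t.2.2| ≤ n}) R (1 / ((m : ℝ) + 1)) hR1
        (by positivity) (by
          rintro t ht
          refine (h t.1 t.2.1 t.2.2 ht.1 ht.2.1 ht.2.2.1 n hn1).trans ?_
          apply ENNReal.ofReal_le_ofReal
          have hc0 : (0 : ℝ) < t.2.2 := by exact_mod_cast ht.2.2.1
          have hH : (t.2.2 : ℝ) ≤ max (max (t.1 : ℝ) t.2.1) t.2.2 := le_max_right _ _
          have hH0 := hc0.trans_le hH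
          rw [div_le_div_iff₀ hH0 hc0]
          nlinarith)
      filter_upwards [this] with l hl _ _ _
      exact hl
    · filter_upwards with l h2 h3 h4
      exact absurd ⟨h2, h3, h4⟩ hc
  filter_upwards [h1] with l hl k hk hG ε K hε
  obtain ⟨m, hm⟩ := exists_nat_one_div_lt hε
  obtain ⟨n, hn⟩ := exists_nat_ge (max K 1)
  have hn1 : (1 : ℝ) ≤ n := (le_max_right _ _).trans hn
  have hnK : K ≤ n := (le_max_left _ _).trans hn
  obtain ⟨R, hR⟩ := exists_nat_ge (max (max (C * n) 1) ((1 + n) / k))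
  have hR1 : (1 : ℝ) ≤ R := ((le_max_right _ _).trans (le_max_left _ _)).trans hR
  have hRC : C * n ≤ R := ((le_max_left _ _).trans (le_max_left _ _)).trans hR
  have hRk : (1 + n) / k ≤ R := (le_max_right _ _).trans hR
  refine (hl n R m (by exact_mod_cast hn1) (by exact_mod_cast hR1) hRC).subset ?_
  rintro ⟨a, b, c⟩ ⟨hPC, hw, hr⟩
  have ha : 0 < a := hPC.1
  have hb : 0 < b := hPC.2.1
  have hc : 0 < c := hPC.2.2.1
  dsimp only at hw hr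
  have hc1 : (1 : ℝ) ≤ c := by exact_mod_cast hc
  have ha0 : (0 : ℝ) < a := by exact_mod_cast ha
  have hb0 : (0 : ℝ) < b := by exact_mod_cast hb
  have h5 := (abs_le.1 hw).2
  have h6 := hG a b ha hb
  have h7 : (a : ℝ) + b ≤ R * c := by
    have h8 : (a : ℝ) + b ≤ (1 + n) / k * c := by
      rw [div_mul_eq_mul_div, le_div_iff₀ hk]
      nlinarith
    exact h8.trans (mul_le_mul_of_nonneg_right hRk (by linarith))
  refine ⟨hPC, ?_, ?_, hw.trans hnK, hr.trans ?_⟩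
  · dsimp only
    linarith
  · dsimp only
    linarith
  · apply mul_le_mul_of_nonneg_left _ (by positivity)
    apply Real.exp_le_exp.mpr
    have := V_nonneg (c : ℝ)
    dsimp only
    nlinarith

/-- the lower half for `α a + β b` and `α (a + b)` -/
theorem lower_both (hLOW : S_LOW) : ∃ c₀ : ℝ, 0 < c₀ ∧ ∀ᵐ β ∂(volume.restrict (Set.Ioi (0 : ℝ))),
    (∀ α : ℝ, 0 ≤ α → {t : ℕ × ℕ × ℕ | PC t ∧ |α * t.1 + β * t.2.1 - t.2.2| ≤ 2 ∧
      (rad (t.1 * t.2.1 * t.2.2) : ℝ) ≤ t.2.2 * Real.exp (-c₀ * V t.2.2)}.Infinite) ∧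
    {t : ℕ × ℕ × ℕ | PC t ∧ |β * ((t.1 : ℝ) + t.2.1) - t.2.2| ≤ 2 ∧
      (rad (t.1 * t.2.1 * t.2.2) : ℝ) ≤ t.2.2 * Real.exp (-c₀ * V t.2.2)}.Infinite := by
  obtain ⟨c₀, hc₀, h⟩ := hLOW
  refine ⟨c₀, hc₀, ?_⟩
  have h' : ∀ᵐ β ∂(volume.restrict (Set.Ioi (0 : ℝ))), ∀ q : ℕ,
      {x : ℕ × ℕ | Good c₀ q β x.1 x.2}.Infinite := by
    rw [ae_all_iff]
    exact fun q => h q
  filter_upwards [h', ae_restrict_mem measurableSet_Ioi] with β hβ hβ0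
  have key : ∀ α : ℝ, 0 ≤ α → {t : ℕ × ℕ × ℕ | PC t ∧ t.1 = 1 ∧
      |α * t.1 + β * t.2.1 - t.2.2| ≤ 2 ∧
      (rad (t.1 * t.2.1 * t.2.2) : ℝ) ≤ t.2.2 * Real.exp (-c₀ * V t.2.2)}.Infinite := by
    intro α hα0
    have hinj : Set.InjOn (fun x : ℕ × ℕ => ((1, x.1, x.2) : ℕ × ℕ × ℕ))
        {x : ℕ × ℕ | Good c₀ (⌊α⌋₊ : ℕ) β x.1 x.2} := by
      rintro ⟨a, b⟩ _ ⟨a', b'⟩ _ h
      simp only [Prod.mk.injEq, true_and] at h
      exact Prod.ext h.1 h.2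
    refine ((hβ ⌊α⌋₊).image hinj).mono ?_
    rintro _ ⟨⟨b, c⟩, ⟨h1, h2, h3, h4, h5⟩, rfl⟩
    simp only at h1 h2 h3 h4 h5
    refine ⟨⟨Nat.one_pos, h1, h2, Nat.coprime_one_left b, Nat.coprime_one_left c, h3⟩, rfl, ?_,
      rad_le_of_log h2 h5⟩
    simp only
    have hf1 := Nat.floor_le hα0
    have hf2 := Nat.lt_floor_add_one α
    have h6 := abs_le.mp h4
    rw [abs_le]
    push_cast
    constructor <;> nlinarith
  constructor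
  · intro α hα
    refine (key α hα).mono ?_
    rintro t ⟨h1, -, h2, h3⟩
    exact ⟨h1, h2, h3⟩
  · refine (key β (le_of_lt hβ0)).mono ?_
    rintro t ⟨h1, -, h2, h3⟩
    refine ⟨h1, ?_, h3⟩
    have e : β * ((t.1 : ℝ) + t.2.1) - t.2.2 = β * t.1 + β * t.2.1 - t.2.2 := by ring
    rw [e]
    exact h2

end Pool.Agent.D0H60.GDL
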