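import Mathlib
import Pool.Agent.D0H60.GDL.Joint
import Pool.Agent.D0H61.AB.Stm2

/-!
# The lower half with the constant `2 √2 - ε`
-/

set_option autoImplicit false

open MeasureTheory Filter

namespace Pool.Agent.D0H60.GDL

open Pool.Agent.D0H61.AB

/-- the lower half for `α a + β b` and `α (a + b)`, with the explicit constant -/
theorem lower_both2 (hLOW : S_LOW2) : ∀ᵐ β ∂(volume.restrict (Set.Ioi (0 : ℝ))),
    ∀ ε : ℝ, 0 < ε →
    (∀ α : ℝ, 0 ≤ α → {t : ℕ × ℕ × ℕ | PC t ∧ |α * t.1 + β * t.2.1 - t.2.2| ≤ 2 ∧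
      (rad (t.1 * t.2.1 * t.2.2) : ℝ) ≤
        t.2.2 * Real.exp (-(2 * Real.sqrt 2 - ε) * V t.2.2)}.Infinite) ∧
    {t : ℕ × ℕ × ℕ | PC t ∧ |β * ((t.1 : ℝ) + t.2.1) - t.2.2| ≤ 2 ∧
      (rad (t.1 * t.2.1 * t.2.2) : ℝ) ≤
        t.2.2 * Real.exp (-(2 * Real.sqrt 2 - ε) * V t.2.2)}.Infinite := by
  have h' : ∀ᵐ β ∂(volume.restrict (Set.Ioi (0 : ℝ))), ∀ n q : ℕ,
      {x : ℕ × ℕ | Good (2 * Real.sqrt 2 - 1 / ((n : ℝ) + 1)) q β x.1 x.2}.Infinite := by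
    rw [ae_all_iff]
    intro n
    rw [ae_all_iff]
    exact fun q => hLOW (1 / ((n : ℝ) + 1)) (by positivity) q
  filter_upwards [h', ae_restrict_mem measurableSet_Ioi] with β hβ hβ0 ε hε
  obtain ⟨n, hn⟩ := exists_nat_one_div_lt hε
  have key : ∀ α : ℝ, 0 ≤ α → {t : ℕ × ℕ × ℕ | PC t ∧ t.1 = 1 ∧
      |α * t.1 + β * t.2.1 - t.2.2| ≤ 2 ∧
      (rad (t.1 * t.2.1 * t.2.2) : ℝ) ≤
        t.2.2 * Real.exp (-(2 * Real.sqrt 2 - ε) * V t.2.2)}.Infinite := by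
    intro α hα0
    have hinj : Set.InjOn (fun x : ℕ × ℕ => ((1, x.1, x.2) : ℕ × ℕ × ℕ))
        {x : ℕ × ℕ | Good (2 * Real.sqrt 2 - 1 / ((n : ℝ) + 1)) (⌊α⌋₊ : ℕ) β x.1 x.2} := by
      rintro ⟨a, b⟩ _ ⟨a', b'⟩ _ h
      simp only [Prod.mk.injEq, true_and] at h
      exact Prod.ext h.1 h.2
    refine ((hβ n ⌊α⌋₊).image hinj).mono ?_
    rintro _ ⟨⟨b, c⟩, ⟨h1, h2, h3, h4, h5⟩, rfl⟩
    simp only at h1 h2 h3 h4 h5
    refine ⟨⟨Nat.one_pos, h1, h2, Nat.coprime_one_left b, Nat.coprime_one_left c, h3⟩, rfl, ?_,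
      (rad_le_of_log h2 h5).trans ?_⟩
    · simp only
      have hf1 := Nat.floor_le hα0
      have hf2 := Nat.lt_floor_add_one α
      have h6 := abs_le.mp h4
      rw [abs_le]
      push_cast
      constructor <;> nlinarith
    · apply mul_le_mul_of_nonneg_left _ (Nat.cast_nonneg _)
      apply Real.exp_le_exp.mpr
      have := V_nonneg (c : ℝ)
      dsimp only
      nlinarith
  constructor
  · intro α hα
    refine (key α hα).mono ?_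
    rintro t ⟨h1, -, h2, h3⟩
    exact ⟨h1, h2, h3⟩
  · refine (key β (le_of_lt hβ0)).mono ?_
    rintro t ⟨h1, -, h2, h3⟩
    refine ⟨h1, ?_, h3⟩
    have e : β * ((t.1 : ℝ) + t.2.1) - t.2.2 = β * t.1 + β * t.2.1 - t.2.2 := by ring
    rw [e]
    exact h2

end Pool.Agent.D0H60.GDL
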