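import Mathlib

/-!
# `∑ exp (-δ √(log n)) / rad n` converges for every `δ > 0`
-/

set_option autoImplicit false

namespace Pool.Agent.D0H60.GDL

open Finset ENNReal

/-- the radical -/
noncomputable def rd (n : ℕ) : ℝ := ((∏ p ∈ n.primeFactors, p : ℕ) : ℝ)

theorem rd_nat_pos (n : ℕ) : 0 < ∏ p ∈ n.primeFactors, p :=
  Finset.prod_pos fun _ hp => (Nat.prime_of_mem_primeFactors hp).pos

theorem rd_pos (n : ℕ) : 0 < rd n := by
  unfold rd
  exact_mod_cast rd_nat_pos n

theorem one_le_rd (n : ℕ) : 1 ≤ rd n := by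
  unfold rd
  exact_mod_cast rd_nat_pos n

theorem rd_mul {m n : ℕ} (h : m.Coprime n) : rd (m * n) = rd m * rd n := by
  unfold rd
  rw [Nat.Coprime.primeFactors_mul h, Finset.prod_union (Nat.Coprime.disjoint_primeFactors h)]
  push_cast
  rfl

theorem rd_one : rd 1 = 1 := by simp [rd]

theorem rd_pow {p k : ℕ} (hp : p.Prime) (hk : k ≠ 0) : rd (p ^ k) = p := by
  unfold rd
  rw [Nat.primeFactors_prime_pow hk hp]
  simp

theorem rd_le {n : ℕ} (hn : n ≠ 0) : rd n ≤ n := by
  unfold rd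
  exact_mod_cast Nat.le_of_dvd (Nat.pos_of_ne_zero hn) (Nat.prod_primeFactors_dvd n)

/-- the terms `n ^ (-α) / rad n` -/
noncomputable def tm (α : ℝ) (n : ℕ) : ℝ := if n = 0 then 0 else (n : ℝ) ^ (-α) / rd n

theorem tm_nonneg (α : ℝ) (n : ℕ) : 0 ≤ tm α n := by
  unfold tm
  split_ifs
  · rfl
  · exact div_nonneg (Real.rpow_nonneg (Nat.cast_nonneg _) _) (rd_pos n).le

theorem tm_one (α : ℝ) : tm α 1 = 1 := by simp [tm, rd_one]

theorem tm_mul (α : ℝ) {m n : ℕ} (h : m.Coprime n) : tm α (m * n) = tm α m * tm α n := by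
  unfold tm
  rcases eq_or_ne m 0 with rfl | hm
  · simp
  rcases eq_or_ne n 0 with rfl | hn
  · simp
  rw [if_neg (mul_ne_zero hm hn), if_neg hm, if_neg hn, rd_mul h]
  push_cast
  rw [Real.mul_rpow (Nat.cast_nonneg _) (Nat.cast_nonneg _)]
  have h1 := (rd_pos m).ne'
  have h2 := (rd_pos n).ne'
  field_simp

theorem tm_prime {α : ℝ} {p k : ℕ} (hp : p.Prime) :
    tm α (p ^ (k + 1)) = ((p : ℝ) ^ (-α)) ^ (k + 1) / p := by
  unfold tm
  rw [if_neg (pow_ne_zero _ hp.ne_zero), rd_pow hp (Nat.succ_ne_zero k)]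
  congr 1
  push_cast
  rw [← Real.rpow_natCast, ← Real.rpow_natCast, ← Real.rpow_mul (Nat.cast_nonneg _),
    ← Real.rpow_mul (Nat.cast_nonneg _)]
  congr 1
  ring

theorem tm_local {α : ℝ} (hα : 0 < α) {p : ℕ} (hp : p.Prime) :
    ∃ S : ℝ, HasSum (fun k => tm α (p ^ k)) S ∧ S ≤ 1 + 1 / (α * (p * Real.log p)) := by
  have hp1 : (1 : ℝ) < p := by exact_mod_cast hp.one_lt
  have hp0 : (0 : ℝ) < p := by linarith
  have hlog : 0 < Real.log p := Real.log_pos hp1
  set r : ℝ := (p : ℝ) ^ (-α) with hr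
  have hr0 : 0 < r := Real.rpow_pos_of_pos hp0 _
  have hr1 : r < 1 := Real.rpow_lt_one_of_one_lt_of_neg hp1 (by linarith)
  have h2 : HasSum (fun k : ℕ => r * r ^ k / p) (r * (1 - r)⁻¹ / p) :=
    ((hasSum_geometric_of_lt_one hr0.le hr1).mul_left r).div_const _
  have h1 : HasSum (fun k => tm α (p ^ (k + 1))) (r * (1 - r)⁻¹ / p) := by
    have e : (fun k => tm α (p ^ (k + 1))) = fun k : ℕ => r * r ^ k / p := by
      funext k
      rw [tm_prime hp, pow_succ, mul_comm]
    rw [e]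
    exact h2
  have h3 := (hasSum_nat_add_iff (f := fun k => tm α (p ^ k)) 1).1 h1
  refine ⟨_, h3, ?_⟩
  have e1 : ∑ i ∈ range 1, tm α (p ^ i) = 1 := by simp [tm_one]
  rw [e1, add_comm]
  have h4 : 1 + α * Real.log p ≤ r⁻¹ := by
    rw [hr, Real.rpow_neg hp0.le, inv_inv, Real.rpow_def_of_pos hp0]
    have := Real.add_one_le_exp (Real.log p * α)
    linarith
  have h5 : r * (1 - r)⁻¹ ≤ 1 / (α * Real.log p) := by
    rw [← div_eq_mul_inv, div_le_div_iff₀ (by linarith) (by positivity)]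
    have h6 : r * (1 + α * Real.log p) ≤ r * r⁻¹ := mul_le_mul_of_nonneg_left h4 hr0.le
    rw [mul_inv_cancel₀ hr0.ne'] at h6
    nlinarith
  have h7 : r * (1 - r)⁻¹ / p ≤ 1 / (α * (p * Real.log p)) := by
    rw [div_le_iff₀ hp0]
    refine h5.trans (le_of_eq ?_)
    field_simp
  linarith

/-- the sum over smooth numbers is at most the product -/
theorem sum_le_prod {α : ℝ} (hα : 0 < α) (s : Finset ℕ) (N : ℕ) (hs : ∀ n ∈ s, n < N) :
    ∑ n ∈ s, tm α n ≤ ∏ p ∈ N.primesBelow, (1 + 1 / (α * (p * Real.log p))) := by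
  have hf1 : tm α 1 = 1 := tm_one α
  have hmul : ∀ {m n : ℕ}, m.Coprime n → tm α (m * n) = tm α m * tm α n := fun h => tm_mul α h
  have hsum : ∀ {p : ℕ}, p.Prime → Summable (fun n : ℕ => ‖tm α (p ^ n)‖) := by
    intro p hp
    obtain ⟨S, hS, -⟩ := tm_local hα hp
    have e : (fun n : ℕ => ‖tm α (p ^ n)‖) = fun n => tm α (p ^ n) := by
      funext n
      rw [Real.norm_of_nonneg (tm_nonneg _ _)]
    rw [e]
    exact hS.summable
  have h1 := (EulerProduct.summable_and_hasSum_smoothNumbers_prod_primesBelow_tsum hf1 hmul hsum N).2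
  replace h1 : HasSum (tm α ∘ ((↑) : N.smoothNumbers → ℕ))
    (∏ p ∈ N.primesBelow, ∑' n : ℕ, tm α (p ^ n)) := h1
  rw [hasSum_subtype_iff_indicator] at h1
  have h2 := sum_le_hasSum s (fun i _ => Set.indicator_nonneg (fun n _ => tm_nonneg α n) i) h1
  refine le_trans (Finset.sum_le_sum fun n hn => ?_) (h2.trans ?_)
  · rcases eq_or_ne n 0 with rfl | h0
    · have : tm α 0 = 0 := by simp [tm]
      rw [this]
      exact Set.indicator_nonneg (fun n _ => tm_nonneg α n) _
    · rw [Set.indicator_of_mem]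
      exact Nat.mem_smoothNumbers_of_lt (Nat.pos_of_ne_zero h0) (hs n hn)
  · apply Finset.prod_le_prod
    · intro p hp
      exact tsum_nonneg fun k => tm_nonneg _ _
    · intro p hp
      obtain ⟨S, hS, hS2⟩ := tm_local hα (Nat.prime_of_mem_primesBelow hp)
      rw [hS.tsum_eq]
      exact hS2

/-- the primes in a dyadic interval -/
theorem dyadic {j : ℕ} (hj : 1 ≤ j) (s : Finset ℕ) (hs : ∀ p ∈ s, p.Prime ∧ 2 ^ j ≤ p ∧ p < 2 ^ (j + 1)) :
    ∑ p ∈ s, 1 / ((p : ℝ) * Real.log p) ≤ 6 / (j : ℝ) ^ 2 := by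
  have hl2 : 0 < Real.log 2 := Real.log_pos (by norm_num)
  have hj0 : (0 : ℝ) < j := by exact_mod_cast hj
  have h1 : ∀ p ∈ s, 1 / ((p : ℝ) * Real.log p) ≤
      Real.log p / (2 ^ j * (j * Real.log 2) ^ 2) := by
    intro p hp
    obtain ⟨hpp, hp1, hp2⟩ := hs p hp
    have hpr : (2 : ℝ) ^ j ≤ p := by exact_mod_cast hp1
    have hlp : j * Real.log 2 ≤ Real.log p := by
      rw [← Real.log_pow]
      exact Real.log_le_log (by positivity) hpr
    have hlp0 : 0 < Real.log p := lt_of_lt_of_le (by positivity) hlp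
    rw [div_le_div_iff₀ (mul_pos (lt_of_lt_of_le (by positivity) hpr) hlp0) (by positivity), one_mul]
    calc (2 : ℝ) ^ j * (j * Real.log 2) ^ 2 ≤ p * Real.log p ^ 2 := by
          apply mul_le_mul hpr _ (by positivity) (by positivity)
          exact pow_le_pow_left₀ (by positivity) hlp 2
      _ = Real.log p * (p * Real.log p) := by ring
  have h2 : ∑ p ∈ s, Real.log p ≤ 2 ^ (j + 1) * Real.log 4 := by
    have h3 : s ⊆ (range (2 ^ (j + 1) + 1)).filter Nat.Prime := by
      intro p hp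
      obtain ⟨hpp, hp1, hp2⟩ := hs p hp
      simp only [mem_filter, mem_range]
      exact ⟨by omega, hpp⟩
    calc ∑ p ∈ s, Real.log p ≤ ∑ p ∈ (range (2 ^ (j + 1) + 1)).filter Nat.Prime, Real.log p := by
          apply Finset.sum_le_sum_of_subset_of_nonneg h3
          intro p hp _
          exact Real.log_natCast_nonneg p
      _ = Real.log (primorial (2 ^ (j + 1)) : ℕ) := by
          unfold primorial
          rw [Nat.cast_prod, Real.log_prod]
          intro p hp
          have := (Finset.mem_filter.1 hp).2.pos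
          positivity
      _ ≤ Real.log ((4 : ℝ) ^ (2 ^ (j + 1))) := by
          apply Real.log_le_log
          · exact_mod_cast primorial_pos _
          · exact_mod_cast primorial_le_four_pow _
      _ = 2 ^ (j + 1) * Real.log 4 := by
          rw [Real.log_pow]
          push_cast
          rfl
  have h4 : Real.log 4 = 2 * Real.log 2 := by
    rw [show (4 : ℝ) = 2 ^ 2 by norm_num, Real.log_pow]
    push_cast
    rfl
  calc ∑ p ∈ s, 1 / ((p : ℝ) * Real.log p) ≤ ∑ p ∈ s, Real.log p / (2 ^ j * (j * Real.log 2) ^ 2) :=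
        Finset.sum_le_sum h1
    _ = (∑ p ∈ s, Real.log p) / (2 ^ j * (j * Real.log 2) ^ 2) := by rw [Finset.sum_div]
    _ ≤ (2 ^ (j + 1) * Real.log 4) / (2 ^ j * (j * Real.log 2) ^ 2) := by gcongr
    _ = (4 / Real.log 2) / (j : ℝ) ^ 2 := by
        rw [h4, pow_succ]
        field_simp
        ring
    _ ≤ 6 / (j : ℝ) ^ 2 := by
        gcongr
        rw [div_le_iff₀ hl2]
        have := Real.log_two_gt_d9
        linarith

/-- the tail of `∑ 1 / (p log p)` -/
theorem tail {ε : ℝ} (hε : 0 < ε) : ∃ z : ℕ, ∀ s : Finset ℕ, (∀ p ∈ s, p.Prime ∧ z ≤ p) →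
    ∑ p ∈ s, 1 / ((p : ℝ) * Real.log p) ≤ ε := by
  have hsm : Summable fun j : ℕ => 6 / (j : ℝ) ^ 2 := by
    have := (Real.summable_one_div_nat_pow (p := 2)).2 (by norm_num)
    simpa [div_eq_mul_inv] using this.mul_left 6
  obtain ⟨t, ht⟩ := (summable_iff_vanishing_norm.1 hsm) ε hε
  obtain ⟨J, hJ⟩ : ∃ J : ℕ, ∀ j ∈ t, j < J := ⟨t.sup id + 1, fun j hj => by
    have := Finset.le_sup (f := id) hj
    simp only [id] at this
    omega⟩
  refine ⟨2 ^ (J + 1), fun s hs => ?_⟩
  set u : Finset ℕ := s.image (Nat.log 2) with hu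
  have h1 : ∑ p ∈ s, 1 / ((p : ℝ) * Real.log p) =
      ∑ j ∈ u, ∑ p ∈ s with Nat.log 2 p = j, 1 / ((p : ℝ) * Real.log p) :=
    (Finset.sum_fiberwise_of_maps_to (fun p hp => Finset.mem_image_of_mem _ hp) _).symm
  rw [h1]
  have h2 : ∀ j ∈ u, J + 1 ≤ j := by
    intro j hj
    obtain ⟨p, hp, rfl⟩ := Finset.mem_image.1 hj
    exact Nat.le_log_of_pow_le (by norm_num) (hs p hp).2
  have h3 : ∀ j ∈ u, ∑ p ∈ s with Nat.log 2 p = j, 1 / ((p : ℝ) * Real.log p) ≤ 6 / (j : ℝ) ^ 2 := by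
    intro j hj
    apply dyadic (by have := h2 j hj; omega)
    intro p hp
    obtain ⟨hp1, hp2⟩ := Finset.mem_filter.1 hp
    have hp0 : p ≠ 0 := (hs p hp1).1.ne_zero
    subst hp2
    exact ⟨(hs p hp1).1, Nat.pow_log_le_self 2 hp0, Nat.lt_pow_succ_log_self (by norm_num) p⟩
  refine (Finset.sum_le_sum h3).trans ?_
  have h4 := ht u (Finset.disjoint_left.2 fun j hj hjt => by
    have h5 := h2 j hj
    have h6 := hJ j hjt
    omega)
  rw [Real.norm_eq_abs] at h4
  exact (le_abs_self _).trans h4.le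

/-- the product is at most `C exp (η / α)` -/
theorem prod_le {η : ℝ} (hη : 0 < η) : ∃ C : ℝ, 0 < C ∧ ∀ (α : ℝ), 0 < α → ∀ N : ℕ,
    ∏ p ∈ N.primesBelow, (1 + 1 / (α * (p * Real.log p))) ≤ C * Real.exp (η / α) := by
  obtain ⟨z, hz⟩ := tail (half_pos hη)
  refine ⟨Real.exp (2 * (z : ℝ) ^ 2 / η), Real.exp_pos _, fun α hα N => ?_⟩
  have hg : ∀ p ∈ N.primesBelow, 0 ≤ 1 / (α * ((p : ℝ) * Real.log p)) := fun p hp => by
    have := Real.log_natCast_nonneg p
    positivity
  rw [← Finset.prod_filter_mul_prod_filter_not N.primesBelow (fun p => p < z)]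
  have h1 : ∏ p ∈ N.primesBelow with p < z, (1 + 1 / (α * ((p : ℝ) * Real.log p))) ≤
      Real.exp (z * (2 * Real.sqrt (1 / α))) := by
    calc ∏ p ∈ N.primesBelow with p < z, (1 + 1 / (α * ((p : ℝ) * Real.log p)))
        ≤ ∏ p ∈ N.primesBelow with p < z, Real.exp (2 * Real.sqrt (1 / α)) := by
          apply Finset.prod_le_prod
          · intro p hp
            have := hg p (Finset.mem_filter.1 hp).1
            linarith
          · intro p hp
            have hpp := Nat.prime_of_mem_primesBelow (Finset.mem_filter.1 hp).1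
            have hp2 : (2 : ℝ) ≤ p := by exact_mod_cast hpp.two_le
            have hl : Real.log 2 ≤ Real.log p := Real.log_le_log (by norm_num) hp2
            have hl2 := Real.log_two_gt_d9
            have h6 : 1 ≤ (p : ℝ) * Real.log p := by nlinarith
            have h7 : 1 / (α * ((p : ℝ) * Real.log p)) ≤ 1 / α := by
              apply one_div_le_one_div_of_le hα
              nlinarith
            have h8 : 0 ≤ Real.sqrt (1 / α) := Real.sqrt_nonneg _
            have h9 : Real.sqrt (1 / α) ^ 2 = 1 / α := Real.sq_sqrt (by positivity)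
            have h10 := Real.add_one_le_exp (Real.sqrt (1 / α))
            have h11 : (Real.exp (Real.sqrt (1 / α))) ^ 2 = Real.exp (2 * Real.sqrt (1 / α)) := by
              rw [← Real.exp_nat_mul]
              norm_num
            rw [← h11]
            have h12 : (Real.sqrt (1 / α) + 1) ^ 2 ≤ (Real.exp (Real.sqrt (1 / α))) ^ 2 :=
              pow_le_pow_left₀ (by linarith) h10 2
            nlinarith
      _ = Real.exp (2 * Real.sqrt (1 / α)) ^ (N.primesBelow.filter (fun p => p < z)).card := by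
          rw [Finset.prod_const]
      _ ≤ Real.exp (2 * Real.sqrt (1 / α)) ^ z := by
          apply pow_le_pow_right₀
          · exact Real.one_le_exp (by positivity)
          · calc (N.primesBelow.filter (fun p => p < z)).card ≤ (range z).card := by
                  apply Finset.card_le_card
                  intro p hp
                  exact mem_range.2 (Finset.mem_filter.1 hp).2
              _ = z := card_range z
      _ = Real.exp (z * (2 * Real.sqrt (1 / α))) := by rw [← Real.exp_nat_mul]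
  have h2 : ∏ p ∈ N.primesBelow with ¬ p < z, (1 + 1 / (α * ((p : ℝ) * Real.log p))) ≤
      Real.exp (η / 2 / α) := by
    calc ∏ p ∈ N.primesBelow with ¬ p < z, (1 + 1 / (α * ((p : ℝ) * Real.log p)))
        ≤ ∏ p ∈ N.primesBelow with ¬ p < z, Real.exp (1 / (α * ((p : ℝ) * Real.log p))) := by
          apply Finset.prod_le_prod
          · intro p hp
            have := hg p (Finset.mem_filter.1 hp).1
            linarith
          · intro p hp
            have := Real.add_one_le_exp (1 / (α * ((p : ℝ) * Real.log p)))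
            linarith
      _ = Real.exp (∑ p ∈ N.primesBelow with ¬ p < z, 1 / (α * ((p : ℝ) * Real.log p))) := by
          rw [Real.exp_sum]
      _ ≤ Real.exp (η / 2 / α) := by
          apply Real.exp_le_exp.2
          have h3 := hz (N.primesBelow.filter (fun p => ¬ p < z)) (fun p hp =>
            ⟨Nat.prime_of_mem_primesBelow (Finset.mem_filter.1 hp).1,
              not_lt.1 (Finset.mem_filter.1 hp).2⟩)
          have e : ∑ p ∈ N.primesBelow with ¬ p < z, 1 / (α * ((p : ℝ) * Real.log p)) =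
              (∑ p ∈ N.primesBelow with ¬ p < z, 1 / ((p : ℝ) * Real.log p)) / α := by
            rw [Finset.sum_div]
            refine Finset.sum_congr rfl fun p _ => ?_
            rw [one_div, one_div, mul_inv, div_eq_mul_inv, mul_comm]
          rw [e]
          gcongr
  have h5 : (z : ℝ) * (2 * Real.sqrt (1 / α)) ≤ η / 2 / α + 2 * (z : ℝ) ^ 2 / η := by
    have h9 : Real.sqrt (1 / α) ^ 2 = 1 / α := Real.sq_sqrt (by positivity)
    set w := Real.sqrt (1 / α)
    have e1 : η / 2 / α = η / 2 * w ^ 2 := by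
      rw [h9]
      field_simp
    rw [e1]
    have h10 : 0 ≤ (η * w - 2 * z) ^ 2 / (2 * η) := by positivity
    have e2 : (η * w - 2 * z) ^ 2 / (2 * η) = η / 2 * w ^ 2 + 2 * (z : ℝ) ^ 2 / η - z * (2 * w) := by
      field_simp
      ring
    linarith
  calc _ ≤ Real.exp (z * (2 * Real.sqrt (1 / α))) * Real.exp (η / 2 / α) := by
        apply mul_le_mul h1 h2 _ (Real.exp_pos _).le
        apply Finset.prod_nonneg
        intro p hp
        have := hg p (Finset.mem_filter.1 hp).1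
        linarith
    _ = Real.exp (z * (2 * Real.sqrt (1 / α)) + η / 2 / α) := by rw [Real.exp_add]
    _ ≤ Real.exp (2 * (z : ℝ) ^ 2 / η + η / α) := by
        apply Real.exp_le_exp.2
        have : η / α = η / 2 / α + η / 2 / α := by ring
        linarith
    _ = _ := by rw [Real.exp_add]

/-- the sum over all `n` -/
theorem tsum_le {η : ℝ} (hη : 0 < η) : ∃ C : ℝ, 0 < C ∧ ∀ (α : ℝ), 0 < α →
    ∑' n : ℕ, ENNReal.ofReal (tm α n) ≤ ENNReal.ofReal (C * Real.exp (η / α)) := by
  obtain ⟨C, hC, h⟩ := prod_le hη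
  refine ⟨C, hC, fun α hα => ?_⟩
  rw [ENNReal.tsum_eq_iSup_sum]
  refine iSup_le fun s => ?_
  rw [← ENNReal.ofReal_sum_of_nonneg fun n _ => tm_nonneg α n]
  apply ENNReal.ofReal_le_ofReal
  refine (sum_le_prod hα s (s.sup id + 1) fun n hn => ?_).trans (h α hα _)
  have := Finset.le_sup (f := id) hn
  simp only [id] at this
  omega

/-- the weights -/
noncomputable def wt (δ : ℝ) (n : ℕ) : ℝ :=
  if n = 0 then 0 else Real.exp (-δ * Real.sqrt (Real.log n)) / rd n

theorem wt_nonneg (δ : ℝ) (n : ℕ) : 0 ≤ wt δ n := by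
  unfold wt
  split_ifs
  · rfl
  · exact div_nonneg (Real.exp_pos _).le (rd_pos n).le

theorem wt_le {δ : ℝ} (hδ : 0 < δ) (n : ℕ) : ∃ k : ℕ,
    wt δ n ≤ Real.exp (2 * (δ / 2)) * Real.exp (-(δ / 2) * (k + 1)) * tm (δ / 2 / (k + 1)) n := by
  unfold wt tm
  rcases eq_or_ne n 0 with rfl | hn
  · exact ⟨0, by simp⟩
  rw [if_neg hn]
  set s := Real.sqrt (Real.log n) with hs
  have hs0 : 0 ≤ s := Real.sqrt_nonneg _
  have hn1 : (1 : ℝ) ≤ n := by exact_mod_cast Nat.one_le_iff_ne_zero.2 hn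
  have hlog : 0 ≤ Real.log n := Real.log_nonneg hn1
  have hsq : s ^ 2 = Real.log n := Real.sq_sqrt hlog
  refine ⟨⌊s⌋₊, ?_⟩
  rw [if_neg hn]
  have h1 : (⌊s⌋₊ : ℝ) ≤ s := Nat.floor_le hs0
  have h2 : s < ⌊s⌋₊ + 1 := Nat.lt_floor_add_one s
  set k : ℝ := (⌊s⌋₊ : ℝ) + 1 with hk
  have hk0 : 0 < k := by positivity
  have hrd := rd_pos n
  rw [mul_div_assoc', div_le_div_iff_of_pos_right hrd, Real.rpow_def_of_pos (by linarith),
    ← Real.exp_add, ← Real.exp_add]
  apply Real.exp_le_exp.2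
  rw [← hsq]
  have h3 : s ^ 2 * -(δ / 2 / k) ≥ -(δ / 2) * s := by
    have h4 : s ^ 2 / k ≤ s := by
      rw [div_le_iff₀ hk0]
      nlinarith
    have e : s ^ 2 * -(δ / 2 / k) = -(δ / 2) * (s ^ 2 / k) := by ring
    rw [e]
    nlinarith
  nlinarith

/-- **`∑ exp (-δ √(log n)) / rad n < ∞`** -/
theorem wt_summable {δ : ℝ} (hδ : 0 < δ) : ∑' n : ℕ, ENNReal.ofReal (wt δ n) ≠ ∞ := by
  set θ := δ / 2 with hθ
  have hθ0 : 0 < θ := by positivity
  obtain ⟨C, hC, h⟩ := tsum_le (η := θ ^ 2 / 2) (by positivity)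
  have h1 : ∑' n : ℕ, ENNReal.ofReal (wt δ n) ≤
      ∑' n : ℕ, ∑' k : ℕ, ENNReal.ofReal (Real.exp (2 * θ) * Real.exp (-θ * (k + 1)) *
        tm (θ / (k + 1)) n) := by
    refine ENNReal.tsum_le_tsum fun n => ?_
    obtain ⟨k, hk⟩ := wt_le hδ n
    exact (ENNReal.ofReal_le_ofReal hk).trans (ENNReal.le_tsum k)
  refine ne_top_of_le_ne_top ?_ h1
  rw [ENNReal.tsum_comm]
  have h2 : ∀ k : ℕ, ∑' n : ℕ, ENNReal.ofReal (Real.exp (2 * θ) * Real.exp (-θ * (k + 1)) *
        tm (θ / (k + 1)) n) ≤ ENNReal.ofReal (Real.exp (2 * θ) * C * Real.exp (-(θ / 2) * (k + 1))) := by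
    intro k
    have hk : (0 : ℝ) < (k : ℝ) + 1 := by positivity
    have e : ∀ n : ℕ, ENNReal.ofReal (Real.exp (2 * θ) * Real.exp (-θ * (k + 1)) *
        tm (θ / (k + 1)) n) = ENNReal.ofReal (Real.exp (2 * θ) * Real.exp (-θ * (k + 1))) *
          ENNReal.ofReal (tm (θ / (k + 1)) n) := fun n =>
      ENNReal.ofReal_mul (by positivity)
    simp_rw [e]
    rw [ENNReal.tsum_mul_left]
    refine (mul_le_mul' le_rfl (h (θ / (k + 1)) (by positivity))).trans ?_
    rw [← ENNReal.ofReal_mul (by positivity)]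
    apply ENNReal.ofReal_le_ofReal
    have e2 : θ ^ 2 / 2 / (θ / (k + 1)) = θ / 2 * (k + 1) := by
      field_simp
    rw [e2]
    have e3 : Real.exp (-θ * (k + 1)) * Real.exp (θ / 2 * (k + 1)) =
        Real.exp (-(θ / 2) * (k + 1)) := by
      rw [← Real.exp_add]
      congr 1
      ring
    have e4 : Real.exp (2 * θ) * Real.exp (-θ * (k + 1)) * (C * Real.exp (θ / 2 * (k + 1))) =
        Real.exp (2 * θ) * C * (Real.exp (-θ * (k + 1)) * Real.exp (θ / 2 * (k + 1))) := by ring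
    rw [e4, e3]
  refine ne_top_of_le_ne_top ?_ (ENNReal.tsum_le_tsum h2)
  apply Summable.tsum_ofReal_ne_top
  have h3 : Summable fun k : ℕ => Real.exp (-(θ / 2)) ^ k := by
    apply summable_geometric_of_lt_one (Real.exp_pos _).le
    rw [Real.exp_lt_one_iff]
    linarith
  have h4 : (fun k : ℕ => Real.exp (2 * θ) * C * Real.exp (-(θ / 2) * (k + 1))) =
      fun k : ℕ => (Real.exp (2 * θ) * C * Real.exp (-(θ / 2))) * Real.exp (-(θ / 2)) ^ k := by
    funext k
    rw [← Real.exp_nat_mul, mul_assoc (Real.exp (2 * θ) * C), ← Real.exp_add]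
    congr 2
    ring
  rw [h4]
  exact h3.mul_left _

end Pool.Agent.D0H60.GDL
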